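import Pool.Agent.TH833.HU.C13c

/-!
# HU C13: the planar theorem
-/

set_option autoImplicit false

open MeasureTheory Set Metric Filter Topology
open scoped ENNReal Real

noncomputable section

namespace Pool.Agent.TH833.HU

open Pool.Agent.TH304.MI Pool.Agent.TH703.HU

theorem phase1 (c9 : S_C9) (c11 : S_C11) {w : ℂ → ℝ} {A : Set ℂ} {Λ v κ : ℝ} (hΛ : Λ = 100000)
    (hc : Continuous w) (h0 : ∀ x, 0 ≤ w x) (h1 : ∀ x, w x ≤ 1) (hi : Integrable w)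
    (hA : MinW w Λ v A) (hκ : 0 < κ) (hκ2 : κ ≤ 1 / 10 ^ 7)
    (hb : mu w (A ∩ ball 1 (3 / 5)) ≤ 43 / 10 ^ 12)
    (h5 : ∀ (G : Set ℂ) (P : ℝ), MeasurableSet G → G ⊆ ball 1 (3 / 5) → 0 ≤ P → PW w G P →
      mu w G ≤ 11 / 10 * P ^ 2 + κ * P) :
    mu w (A ∩ ball 1 (29 / 50)) ≤ κ ^ 2 / 10 ^ 6 := by
  refine c11 (fun t => mu w (A ∩ ball 1 t)) Λ κ (2 * π * (3 / 5))
    (mu_ball_mono h0 hi A 1 _ _) (mu_ball_lip h0 h1 hi A 1 (by norm_num))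
    (fun t _ => mu_nonneg h0 _) (by rw [hΛ]; norm_num) hκ
    (hκ2.trans (by rw [hΛ]; norm_num)) (hκ2.trans (by norm_num)) ?_ ?_
  · rw [hΛ]
    linarith
  · intro t ht d hd
    have hP := c9 w Λ v A hc h0 hi (by rw [hΛ]; norm_num) hA 1 t d
      (lt_trans (by norm_num) ht.1) hd
    exact h5 _ _ (hA.meas.inter measurableSet_ball)
      (inter_subset_right.trans (ball_subset_ball ht.2.le)) (pw_nonneg h0 hP) hP

theorem phase2 (c9 : S_C9) (c10 : S_C10) {w : ℂ → ℝ} {A : Set ℂ} {Λ v κ : ℝ}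
    (hΛ : Λ = 100000)
    (hc : Continuous w) (h0 : ∀ x, 0 ≤ w x) (h1 : ∀ x, w x ≤ 1) (hi : Integrable w)
    (hA : MinW w Λ v A) (hκ : 0 < κ) (hκ2 : κ ≤ 1 / 10 ^ 7)
    (hb : mu w (A ∩ ball 1 (29 / 50)) ≤ κ ^ 2 / 10 ^ 6)
    (h6 : ∀ (y : ℝ) (G : Set ℂ) (P : ℝ), |y| ≤ 1 / 4 → MeasurableSet G →
      G ⊆ ball ⟨1 / 2 + κ / 20, y⟩ (κ / 20) → 0 ≤ P → PW w G P → 7 / 10 * √(mu w G) ≤ P)
    (y : ℝ) (hy : |y| ≤ 1 / 4) :
    mu w (A ∩ ball ⟨1 / 2 + κ / 20, y⟩ (κ / 40)) = 0 := by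
  have hincl : ball (⟨1 / 2 + κ / 20, y⟩ : ℂ) (κ / 20) ⊆ ball 1 (29 / 50) := by
    apply ball_subset_ball'
    have hd : dist (⟨1 / 2 + κ / 20, y⟩ : ℂ) 1 ≤ 14 / 25 := by
      rw [dist_eq_norm]
      have : ‖(⟨1 / 2 + κ / 20, y⟩ : ℂ) - 1‖ ^ 2 ≤ (14 / 25) ^ 2 := by
        rw [← Complex.normSq_eq_norm_sq, Complex.normSq_apply]
        simp only [Complex.sub_re, Complex.one_re, Complex.sub_im, Complex.one_im, sub_zero]
        obtain ⟨q1, q2⟩ := abs_le.1 hy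
        nlinarith
      exact (pow_le_pow_iff_left₀ (norm_nonneg _) (by norm_num) (by norm_num)).1 this
    have : κ / 20 ≤ 1 / 50 := by
      have : κ ≤ 1 / 10 ^ 7 := hκ2
      norm_num at *
      linarith
    linarith
  have hg1 : mu w (A ∩ ball ⟨1 / 2 + κ / 20, y⟩ (κ / 20)) ≤ κ ^ 2 / 10 ^ 6 :=
    (mu_mono h0 hi (inter_subset_inter_right _ hincl)).trans hb
  have hsq : √(mu w (A ∩ ball ⟨1 / 2 + κ / 20, y⟩ (κ / 20))) ≤ κ / 1000 := by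
    rw [Real.sqrt_le_left (by positivity)]
    refine hg1.trans (le_of_eq ?_)
    ring
  have hhalf : (1 : ℝ) - 1 / 2 = 1 / 2 := by norm_num
  refine c10 (fun t => mu w (A ∩ ball ⟨1 / 2 + κ / 20, y⟩ t)) (κ / 40) (κ / 20) (7 / 10) (1 / 2)
    Λ (2 * π * (κ / 20)) (by linarith)
    (mu_ball_mono h0 hi A _ _ _) (mu_ball_lip h0 h1 hi A _ (by positivity))
    (fun t _ => mu_nonneg h0 _) (by norm_num) (by norm_num) (by norm_num)
    (by rw [hΛ]; norm_num) ?_ ?_ ?_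
  · intro t ht d hd
    have hP := c9 w Λ v A hc h0 hi (by rw [hΛ]; norm_num) hA _ t d
      (lt_trans (by positivity) ht.1) hd
    rw [← Real.sqrt_eq_rpow]
    exact h6 y _ _ hy (hA.meas.inter measurableSet_ball)
      (inter_subset_right.trans (ball_subset_ball ht.2.le)) (pw_nonneg h0 hP) hP
  · rw [hhalf, ← Real.sqrt_eq_rpow, hΛ]
    have : κ ≤ 1 / 10 ^ 7 := hκ2
    norm_num at *
    linarith
  · rw [hhalf, ← Real.sqrt_eq_rpow]
    linarith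

theorem phase3 {w : ℂ → ℝ} {A : Set ℂ} {κ : ℝ}
    (h0 : ∀ x, 0 ≤ w x) (hi : Integrable w)
    (hD : ∀ x : ℂ, |x.re| + |x.im| < 1 → 0 < w x)
    (hA : MeasurableSet A) (hκ : 0 < κ) (hκ2 : κ ≤ 1 / 10 ^ 7)
    (h : ∀ y : ℝ, |y| ≤ 1 / 4 → mu w (A ∩ ball ⟨1 / 2 + κ / 20, y⟩ (κ / 40)) = 0) :
    volume (A ∩ {x | |x.re - (1 / 2 + κ / 20)| < κ / 100 ∧ |x.im| < 1 / 4}) = 0 := by
  have hκ3 : κ ≤ 1 / 100 := hκ2.trans (by norm_num)
  have hnull : ∀ q : {q : ℚ // |(q : ℝ)| ≤ 1 / 4},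
      volume (A ∩ ball ⟨1 / 2 + κ / 20, ((q : ℚ) : ℝ)⟩ (κ / 40)) = 0 := by
    intro q
    apply mu_zero_null h0 hi (hA.inter measurableSet_ball) _ (h _ q.2)
    rintro x ⟨_, hx⟩
    apply hD
    rw [mem_ball, dist_eq_norm] at hx
    have e1 := (Complex.abs_re_le_norm (x - ⟨1 / 2 + κ / 20, ((q : ℚ) : ℝ)⟩)).trans_lt hx
    have e2 := (Complex.abs_im_le_norm (x - ⟨1 / 2 + κ / 20, ((q : ℚ) : ℝ)⟩)).trans_lt hx
    simp only [Complex.sub_re, Complex.sub_im] at e1 e2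
    have hq := q.2
    rw [abs_lt] at e1 e2
    rw [abs_le] at hq
    have a1 : |x.re| < 3 / 5 := by rw [abs_lt]; constructor <;> linarith [e1.1, e1.2]
    have a2 : |x.im| < 3 / 10 := by rw [abs_lt]; constructor <;> linarith [e2.1, e2.2, hq.1, hq.2]
    linarith
  refine measure_mono_null ?_ (measure_iUnion_null hnull)
  rintro x ⟨hxA, hx1, hx2⟩
  obtain ⟨i1, i2⟩ := abs_lt.1 hx2
  obtain ⟨q, q1, q2⟩ := exists_rat_btwn (show max (x.im - κ / 100) (-(1 / 4)) <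
    min (x.im + κ / 100) (1 / 4) by
      rw [max_lt_iff, lt_min_iff, lt_min_iff]
      refine ⟨⟨?_, ?_⟩, ?_, ?_⟩ <;> linarith)
  rw [max_lt_iff] at q1
  rw [lt_min_iff] at q2
  rw [mem_iUnion]
  refine ⟨⟨q, abs_le.2 ⟨q1.2.le, q2.2.le⟩⟩, hxA, ?_⟩
  rw [mem_ball, dist_eq_norm]
  have hsq : ‖x - ⟨1 / 2 + κ / 20, (q : ℝ)⟩‖ ^ 2 < (κ / 40) ^ 2 := by
    rw [← Complex.normSq_eq_norm_sq, Complex.normSq_apply]
    simp only [Complex.sub_re, Complex.sub_im]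
    obtain ⟨r1, r2⟩ := abs_lt.1 hx1
    have s1 : (x.re - (1 / 2 + κ / 20)) * (x.re - (1 / 2 + κ / 20)) ≤ (κ / 100) ^ 2 := by
      nlinarith
    have s2 : (x.im - (q : ℝ)) * (x.im - (q : ℝ)) ≤ (κ / 100) ^ 2 := by
      nlinarith [q1.1, q2.1]
    have : 0 < κ ^ 2 := by positivity
    nlinarith
  exact (pow_lt_pow_iff_left₀ (norm_nonneg _) (by positivity) (by norm_num)).1 hsq

/-- Rotation by a unit complex number. -/
theorem rot_step (c12 : S_C12) {w : ℂ → ℝ} {A : Set ℂ} {Λ v ρ : ℝ} (c : ℂ) (hcn : ‖c‖ = 1)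
    (hw : ∀ x, w (c * x) = w x) (hDD : {x | 0 < w x} = DD)
    (hA : MinW w Λ v A)
    (H : ∀ B : Set ℂ, MinW w Λ v B → volume (B ∩ DD ∩ ball 1 ρ) = 0) :
    volume (A ∩ DD ∩ ball c ρ) = 0 := by
  have hcs : c ∈ Submonoid.unitSphere ℂ := mem_sphere_zero_iff_norm.2 hcn
  obtain ⟨z, hz⟩ : ∃ z : Circle, (z : ℂ) = c := ⟨⟨c, hcs⟩, rfl⟩
  set T : ℂ ≃ₗᵢ[ℝ] ℂ := rotation z with hT
  have hTx : ∀ x, T x = c * x := fun x => by rw [hT, rotation_apply, hz]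
  have h1 := H _ (c12 w T (fun x => by rw [hTx, hw]) Λ v A hA)
  have hDm : MeasurableSet DD := by
    have : IsOpen DD := by
      have : DD = {x : ℂ | |x.re| + |x.im| < 1} := rfl
      rw [this]
      exact isOpen_lt ((continuous_abs.comp Complex.continuous_re).add
        (continuous_abs.comp Complex.continuous_im)) continuous_const
    exact this.measurableSet
  have hm : MeasurableSet (A ∩ DD ∩ ball c ρ) := (hA.meas.inter hDm).inter measurableSet_ball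
  rw [← T.measurePreserving.measure_preimage hm.nullMeasurableSet]
  have e : T ⁻¹' (A ∩ DD ∩ ball c ρ) = T ⁻¹' A ∩ DD ∩ ball 1 ρ := by
    ext x
    simp only [mem_preimage, mem_inter_iff]
    have e1 : T x ∈ DD ↔ x ∈ DD := by
      rw [← hDD, mem_ofPred_eq, mem_ofPred_eq, hTx, hw]
    have e2 : T x ∈ ball c ρ ↔ x ∈ ball 1 ρ := by
      rw [mem_ball, mem_ball]
      have : c = T 1 := by rw [hTx, mul_one]
      conv_lhs => rw [this]
      rw [T.dist_map]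
    rw [e1, e2]
  rw [e]
  exact h1

theorem exists_big (N : ℕ) : ∃ m : ℕ, N ≤ m ∧ 1 ≤ m ∧ 1 / √(m : ℝ) ≤ 1 / 10 ^ 7 := by
  refine ⟨max N (10 ^ 14), le_max_left _ _, le_trans (by norm_num) (le_max_right _ _), ?_⟩
  apply one_div_le_one_div_of_le (by norm_num)
  apply Real.le_sqrt_of_sq_le
  have : ((10 ^ 14 : ℕ) : ℝ) ≤ ((max N (10 ^ 14) : ℕ) : ℝ) := by
    exact_mod_cast le_max_right N (10 ^ 14)
  refine le_trans ?_ this
  norm_num

theorem c13 (c0 : S_C0) (c1 : S_C1) (c4 : S_C4) (c5 : S_C5) (c6 : S_C6) (c7 : S_C7) (c8 : S_C8)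
    (c9 : S_C9) (c10 : S_C10) (c11 : S_C11) (c12 : S_C12) : S_C13 := by
  obtain ⟨m1, hm1⟩ := c1.1 (1 / 10 ^ 16) (by norm_num)
  obtain ⟨m5, hm5⟩ := c5
  obtain ⟨m6, hm6⟩ := c6
  obtain ⟨m7, hm7⟩ := c7 100000 (by norm_num)
  obtain ⟨m8, hm8⟩ := c8 (1 / 10 ^ 16) (by norm_num)
  obtain ⟨m, hm, hmpos, hmκ⟩ := exists_big (m1 + m5 + m6 + m7 + m8)
  obtain ⟨_, hc, h0, h1, hDD, _, hi, s1, s2, s3, _, _⟩ := c0 m hmpos
  obtain ⟨hin, hout⟩ := hm1 m (by omega)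
  have h5 := hm5 m (by omega)
  have h6 := hm6 m (by omega)
  have h7 := hm7 m (by omega)
  obtain ⟨h8c, h8⟩ := hm8 m (by omega)
  set κ : ℝ := 1 / √(m : ℝ) with hκ
  have hsq : 0 < √(m : ℝ) := Real.sqrt_pos.2 (by exact_mod_cast hmpos)
  have hκ0 : 0 < κ := by positivity
  have k1 : 1 / 20 / √(m : ℝ) = κ / 20 := by rw [hκ]; ring
  have k2 : 1 / 100 / √(m : ℝ) = κ / 100 := by rw [hκ]; ring
  have hD1 : ∀ x : ℂ, 0 < wt m x → |x.re| + |x.im| < 1 := by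
    intro x hx
    have : x ∈ DD := by rw [← hDD]; exact hx
    exact this
  have hD2 : ∀ x : ℂ, |x.re| + |x.im| < 1 → 0 < wt m x := by
    intro x hx
    have : x ∈ {x | 0 < wt m x} := by rw [hDD]; exact hx
    exact this
  have key : ∀ A : Set ℂ, MinW (wt m) 100000 (34 / 10 ^ 11) A →
      volume (A ∩ DD ∩ ball 1 (1 / 20)) = 0 := by
    intro A hA
    have b1 := bulk c4 rfl rfl rfl hc h0 h1 hi hD1 hin hout h8c h8 hA
    have b2 := phase1 c9 c11 rfl hc h0 h1 hi hA hκ0 hmκ b1 (fun G P hG hGs hP hPW => by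
      refine (h5 G P hG hGs hP hPW).trans (le_of_eq ?_)
      rw [hκ]; ring)
    have b3 := phase2 c9 c10 rfl hc h0 h1 hi hA hκ0 hmκ b2 (fun y G P hy hG hGs hP hPW => by
      refine h6 y G P hy hG ?_ hP hPW
      rw [k1]; exact hGs)
    have b4 := phase3 h0 hi hD2 hA.meas hκ0 hmκ b3
    apply h7 (34 / 10 ^ 11) A hA
    rw [k1, k2]
    exact b4
  refine ⟨100000, 34 / 10 ^ 11, m, by norm_num, by norm_num, by norm_num, hmpos, ?_, ?_⟩
  · obtain ⟨g1, g2⟩ := h8 (41 / 2000000) ⟨by norm_num, by norm_num⟩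
    obtain ⟨g3, g4⟩ := num1 rfl g1
    exact ⟨_, _, measurableSet_ball, g3, g2, by linarith⟩
  · intro A hA c hcc
    have hw : ∀ a b : ℝ, wt m ⟨-a, -b⟩ = wt m ⟨a, b⟩ := fun a b => by rw [s2, s3]
    have hrot : ∀ x : ℂ, wt m (c * x) = wt m x := by
      intro x
      rcases hcc with rfl | rfl | rfl | rfl
      · rw [one_mul]
      · have : (-1 : ℂ) * x = ⟨-x.re, -x.im⟩ := by apply Complex.ext <;> simp
        rw [this, hw]
      · have : Complex.I * x = ⟨-x.im, x.re⟩ := by apply Complex.ext <;> simp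
        rw [this, s2, s1]
      · have : (-Complex.I) * x = ⟨x.im, -x.re⟩ := by apply Complex.ext <;> simp
        rw [this, s3, s1]
    have hcn : ‖c‖ = 1 := by
      rcases hcc with rfl | rfl | rfl | rfl <;> simp
    exact rot_step c12 c hcn hrot hDD hA key

end Pool.Agent.TH833.HU
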