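import Pool.Agent.TH703.HU.Stm

/-!
# HU C13, part 1: elementary facts on the weighted mass
-/

set_option autoImplicit false

open MeasureTheory Set Metric Filter Topology
open scoped ENNReal Real

noncomputable section

namespace Pool.Agent.TH833.HU

open Pool.Agent.TH304.MI Pool.Agent.TH703.HU

theorem pw_mono {w : ℂ → ℝ} {A : Set ℂ} {C C' : ℝ} (h : PW w A C) (hC : C ≤ C') : PW w A C' :=
  fun Y hY => (h Y hY).trans hC

theorem pw_nonneg {w : ℂ → ℝ} {A : Set ℂ} {C : ℝ} (hw : ∀ x, 0 ≤ w x) (h : PW w A C) : 0 ≤ C := by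
  have h1 := h (fun _ => 0) ⟨contDiff_const, HasCompactSupport.zero, by simp [tsupport],
    by simpa using hw⟩
  simpa [dv2] using h1

theorem mu_nonneg {w : ℂ → ℝ} (hw : ∀ x, 0 ≤ w x) (A : Set ℂ) : 0 ≤ mu w A :=
  integral_nonneg (fun x => hw x)

theorem mu_mono {w : ℂ → ℝ} (hw : ∀ x, 0 ≤ w x) (hi : Integrable w) {A B : Set ℂ} (h : A ⊆ B) :
    mu w A ≤ mu w B :=
  setIntegral_mono_set hi.integrableOn (ae_of_all _ hw) h.eventuallyLE

theorem mu_split {w : ℂ → ℝ} (hi : Integrable w) (A : Set ℂ) {B : Set ℂ} (hB : MeasurableSet B) :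
    mu w (A ∩ B) + mu w (A \ B) = mu w A :=
  integral_inter_add_sdiff hB hi.integrableOn

theorem mu_le_real {w : ℂ → ℝ} (h1 : ∀ x, w x ≤ 1) (hi : Integrable w) {A : Set ℂ}
    (hf : volume A ≠ ⊤) : mu w A ≤ volume.real A := by
  have h2 : ∫ x in A, w x ≤ ∫ x in A, (1 : ℝ) :=
    integral_mono hi.integrableOn (integrableOn_const (hs := hf)) h1
  simpa [mu] using h2

theorem mu_zero_null {w : ℂ → ℝ} (hw : ∀ x, 0 ≤ w x) (hi : Integrable w) {A : Set ℂ}
    (hA : MeasurableSet A) (hpos : ∀ x ∈ A, 0 < w x) (h0 : mu w A = 0) : volume A = 0 := by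
  have h1 := (setIntegral_eq_zero_iff_of_nonneg_ae (ae_of_all _ hw) hi.integrableOn).1 h0
  have h2 : ∀ᵐ x ∂(volume.restrict A), False := by
    filter_upwards [h1, ae_restrict_mem hA] with x hx hxA
    have := hpos x hxA
    simp only [Pi.zero_apply] at hx
    linarith
  have h3 : volume.restrict A univ = 0 := by
    have := ae_iff.1 h2
    simpa using this
  simpa using h3

theorem vol_rect (s t : Set ℝ) (hs : MeasurableSet s) (ht : MeasurableSet t) :
    volume {x : ℂ | x.re ∈ s ∧ x.im ∈ t} = volume s * volume t := by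
  have h := Complex.volume_preserving_equiv_real_prod.measure_preimage
    (s := s ×ˢ t) (hs.prod ht).nullMeasurableSet
  have e : Complex.measurableEquivRealProd ⁻¹' (s ×ˢ t) = {x : ℂ | x.re ∈ s ∧ x.im ∈ t} := by
    ext x; simp [Complex.measurableEquivRealProd_apply]
  rw [e] at h
  rw [h, Measure.volume_eq_prod, Measure.prod_prod]

theorem vol_ann {δ : ℝ} (hδ : 0 < δ) :
    volume {t : ℝ | 1 / 2 - δ ≤ |t| ∧ |t| ≤ 1 / 2 + δ} ≤ ENNReal.ofReal (4 * δ) := by
  have hsub : {t : ℝ | 1 / 2 - δ ≤ |t| ∧ |t| ≤ 1 / 2 + δ} ⊆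
      Icc (-(1 / 2 + δ)) (-(1 / 2 - δ)) ∪ Icc (1 / 2 - δ) (1 / 2 + δ) := by
    intro t ht
    simp only [mem_ofPred_eq] at ht
    rcases abs_cases t with ⟨h, h'⟩ | ⟨h, h'⟩
    · right; constructor <;> linarith
    · left; constructor <;> linarith
  refine (measure_mono hsub).trans ((measure_union_le _ _).trans ?_)
  rw [Real.volume_Icc, Real.volume_Icc, ← ENNReal.ofReal_add (by linarith) (by linarith)]
  apply ENNReal.ofReal_le_ofReal
  linarith

theorem meas_ann (δ : ℝ) : MeasurableSet {t : ℝ | 1 / 2 - δ ≤ |t| ∧ |t| ≤ 1 / 2 + δ} := by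
  have h1 : MeasurableSet {t : ℝ | 1 / 2 - δ ≤ |t|} :=
    (isClosed_le continuous_const continuous_abs).measurableSet
  have h2 : MeasurableSet {t : ℝ | |t| ≤ 1 / 2 + δ} :=
    (isClosed_le continuous_abs continuous_const).measurableSet
  exact h1.inter h2

theorem meas_bx : MeasurableSet {t : ℝ | |t| ≤ 1} :=
  (isClosed_le continuous_abs continuous_const).measurableSet

theorem vol_bx : volume {t : ℝ | |t| ≤ 1} = ENNReal.ofReal 2 := by
  have : {t : ℝ | |t| ≤ 1} = Icc (-1) 1 := by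
    ext t; simp [abs_le]
  rw [this, Real.volume_Icc]; norm_num

/-- The mass outside the square is small. -/
theorem mu_out {w : ℂ → ℝ} {δ : ℝ} (hδ : 0 < δ) (h0 : ∀ x, 0 ≤ w x) (h1 : ∀ x, w x ≤ 1)
    (hi : Integrable w) (hD : ∀ x : ℂ, 0 < w x → |x.re| + |x.im| < 1)
    (hs : ∀ x : ℂ, (1 / 2 + δ ≤ |x.re| ∨ 1 / 2 + δ ≤ |x.im|) → w x ≤ δ)
    {A : Set ℂ} (hA : ∀ x ∈ A, ¬ (|x.re| < 1 / 2 - δ ∧ |x.im| < 1 / 2 - δ)) 
    (hAm : MeasurableSet A) :
    mu w A ≤ 20 * δ := by
  set S1 : Set ℂ := {x : ℂ | x.re ∈ {t : ℝ | 1 / 2 - δ ≤ |t| ∧ |t| ≤ 1 / 2 + δ} ∧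
    x.im ∈ {t : ℝ | |t| ≤ 1}} with hS1
  set S2 : Set ℂ := {x : ℂ | x.re ∈ {t : ℝ | |t| ≤ 1} ∧
    x.im ∈ {t : ℝ | 1 / 2 - δ ≤ |t| ∧ |t| ≤ 1 / 2 + δ}} with hS2
  set S3 : Set ℂ := {x : ℂ | x.re ∈ {t : ℝ | |t| ≤ 1} ∧ x.im ∈ {t : ℝ | |t| ≤ 1}} with hS3
  have mS1 : MeasurableSet S1 :=
    (Complex.measurable_re (meas_ann δ)).inter (Complex.measurable_im meas_bx)
  have mS2 : MeasurableSet S2 :=
    (Complex.measurable_re meas_bx).inter (Complex.measurable_im (meas_ann δ))
  have mS3 : MeasurableSet S3 :=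
    (Complex.measurable_re meas_bx).inter (Complex.measurable_im meas_bx)
  have v1 : volume S1 ≤ ENNReal.ofReal (8 * δ) := by
    rw [hS1, vol_rect _ _ (meas_ann δ) meas_bx, vol_bx]
    calc _ ≤ ENNReal.ofReal (4 * δ) * ENNReal.ofReal 2 := by gcongr; exact vol_ann hδ
      _ = ENNReal.ofReal (8 * δ) := by
        rw [← ENNReal.ofReal_mul (by linarith)]; congr 1; ring
  have v2 : volume S2 ≤ ENNReal.ofReal (8 * δ) := by
    rw [hS2, vol_rect _ _ meas_bx (meas_ann δ), vol_bx]
    calc _ ≤ ENNReal.ofReal 2 * ENNReal.ofReal (4 * δ) := by gcongr; exact vol_ann hδ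
      _ = ENNReal.ofReal (8 * δ) := by
        rw [← ENNReal.ofReal_mul (by norm_num)]; congr 1; ring
  have v3 : volume S3 = ENNReal.ofReal 4 := by
    rw [hS3, vol_rect _ _ meas_bx meas_bx, vol_bx, ← ENNReal.ofReal_mul (by norm_num)]
    norm_num
  have f1 : volume S1 ≠ ⊤ := ne_top_of_le_ne_top ENNReal.ofReal_ne_top v1
  have f2 : volume S2 ≠ ⊤ := ne_top_of_le_ne_top ENNReal.ofReal_ne_top v2
  have f3 : volume S3 ≠ ⊤ := by rw [v3]; exact ENNReal.ofReal_ne_top
  have r1 : volume.real S1 ≤ 8 * δ := ENNReal.toReal_le_of_le_ofReal (by linarith) v1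
  have r2 : volume.real S2 ≤ 8 * δ := ENNReal.toReal_le_of_le_ofReal (by linarith) v2
  have r3 : volume.real S3 = 4 := by
    rw [measureReal_def, v3, ENNReal.toReal_ofReal (by norm_num)]
  have i1 : Integrable (S1.indicator (fun _ => (1 : ℝ))) :=
    (integrable_indicator_iff mS1).2 (integrableOn_const (hs := f1))
  have i2 : Integrable (S2.indicator (fun _ => (1 : ℝ))) :=
    (integrable_indicator_iff mS2).2 (integrableOn_const (hs := f2))
  have i3 : Integrable (S3.indicator (fun _ => δ)) :=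
    (integrable_indicator_iff mS3).2 (integrableOn_const (hs := f3))
  have hpt : ∀ x, A.indicator w x ≤ S1.indicator (fun _ => (1 : ℝ)) x +
      S2.indicator (fun _ => (1 : ℝ)) x + S3.indicator (fun _ => δ) x := by
    intro x
    have p1 : 0 ≤ S1.indicator (fun _ => (1 : ℝ)) x :=
      indicator_nonneg (fun _ _ => zero_le_one) x
    have p2 : 0 ≤ S2.indicator (fun _ => (1 : ℝ)) x :=
      indicator_nonneg (fun _ _ => zero_le_one) x
    have p3 : 0 ≤ S3.indicator (fun _ => δ) x := indicator_nonneg (fun _ _ => hδ.le) x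
    by_cases hx : x ∈ A
    · rw [indicator_of_mem hx]
      by_cases hw : 0 < w x
      · have hd := hD x hw
        have hre : |x.re| ≤ 1 := by linarith [abs_nonneg x.im]
        have him : |x.im| ≤ 1 := by linarith [abs_nonneg x.re]
        have hx3 : x ∈ S3 := ⟨hre, him⟩
        by_cases hb : 1 / 2 + δ ≤ |x.re| ∨ 1 / 2 + δ ≤ |x.im|
        · have := hs x hb
          rw [indicator_of_mem hx3]
          linarith
        · push Not at hb
          have hn := hA x hx
          have hw1 := h1 x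
          by_cases hr : |x.re| < 1 / 2 - δ
          · have hi' : ¬ |x.im| < 1 / 2 - δ := fun h => hn ⟨hr, h⟩
            have hx2 : x ∈ S2 := ⟨hre, by
              simp only [mem_ofPred_eq]; exact ⟨by linarith, hb.2.le⟩⟩
            rw [indicator_of_mem hx2]
            linarith
          · have hx1 : x ∈ S1 := ⟨by simp only [mem_ofPred_eq]; exact ⟨by linarith, hb.1.le⟩, him⟩
            rw [indicator_of_mem hx1]
            linarith
      · linarith [h0 x]
    · rw [indicator_of_notMem hx]; linarith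
  have hA1 : mu w A = ∫ x, A.indicator w x := (integral_indicator hAm).symm
  rw [hA1]
  calc ∫ x, A.indicator w x ≤ ∫ x, (S1.indicator (fun _ => (1 : ℝ)) x +
      S2.indicator (fun _ => (1 : ℝ)) x + S3.indicator (fun _ => δ) x) :=
        integral_mono ((integrable_indicator_iff hAm).2 hi.integrableOn)
          ((i1.add i2).add i3) hpt
    _ = volume.real S1 + volume.real S2 + volume.real S3 * δ := by
      have e1 : ∫ x, (S1.indicator (fun _ => (1 : ℝ)) x +
          S2.indicator (fun _ => (1 : ℝ)) x + S3.indicator (fun _ => δ) x) =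
          (∫ x, (S1.indicator (fun _ => (1 : ℝ)) x + S2.indicator (fun _ => (1 : ℝ)) x)) +
            ∫ x, S3.indicator (fun _ => δ) x := integral_add (i1.add i2) i3
      rw [e1, integral_add i1 i2, integral_indicator mS1,
        integral_indicator mS2, integral_indicator mS3]
      simp [smul_eq_mul]
    _ ≤ 20 * δ := by rw [r3]; linarith

theorem real_ball (c : ℂ) {r : ℝ} (hr : 0 ≤ r) : volume.real (ball c r) = π * r ^ 2 := by
  rw [measureReal_def, Complex.volume_ball]
  rw [ENNReal.toReal_mul, ENNReal.toReal_pow, ENNReal.toReal_ofReal hr]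
  simp [mul_comm]

theorem mu_ball_diff {w : ℂ → ℝ} (h1 : ∀ x, w x ≤ 1)
    (hi : Integrable w) (A : Set ℂ) (c : ℂ) {R s t : ℝ} (hs : 0 ≤ s) (hst : s ≤ t)
    (htR : t ≤ R) :
    mu w (A ∩ ball c t) - mu w (A ∩ ball c s) ≤ 2 * π * R * (t - s) := by
  have e := mu_split hi (A ∩ ball c t) (measurableSet_ball (x := c) (ε := s))
  have e2 : A ∩ ball c t ∩ ball c s = A ∩ ball c s := by
    rw [inter_assoc, inter_eq_right.2 (ball_subset_ball hst)]
  rw [e2] at e
  have h2 : volume.real ((A ∩ ball c t) \ ball c s) ≤ volume.real (ball c t \ ball c s) :=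
    measureReal_mono (by gcongr; exact inter_subset_right)
      (ne_top_of_le_ne_top (measure_ball_lt_top (x := c) (r := t)).ne (measure_mono sdiff_subset))
  have h3 : volume.real (ball c t \ ball c s) = π * t ^ 2 - π * s ^ 2 := by
    rw [measureReal_sdiff (ball_subset_ball hst) measurableSet_ball
      (h₁ := (measure_ball_lt_top (x := c) (r := t)).ne), real_ball c (hs.trans hst), real_ball c hs]
  have h4 := mu_le_real h1 hi (A := (A ∩ ball c t) \ ball c s)
    (ne_top_of_le_ne_top (measure_ball_lt_top (x := c) (r := t)).ne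
      (measure_mono (sdiff_subset.trans inter_subset_right)))
  have h5 : π * t ^ 2 - π * s ^ 2 ≤ 2 * π * R * (t - s) := by
    have : π * t ^ 2 - π * s ^ 2 = π * ((t + s) * (t - s)) := by ring
    rw [this]
    have h6 : (t + s) * (t - s) ≤ (2 * R) * (t - s) := by
      apply mul_le_mul_of_nonneg_right _ (by linarith)
      linarith
    nlinarith [Real.pi_pos]
  linarith

theorem mu_ball_lip {w : ℂ → ℝ} (h0 : ∀ x, 0 ≤ w x) (h1 : ∀ x, w x ≤ 1)
    (hi : Integrable w) (A : Set ℂ) (c : ℂ) {r R : ℝ} (hr : 0 ≤ r) :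
    ∀ s ∈ Icc r R, ∀ t ∈ Icc r R, |mu w (A ∩ ball c s) - mu w (A ∩ ball c t)| ≤
      (2 * π * R) * |s - t| := by
  intro s hs t ht
  wlog hst : s ≤ t with H
  · have := H h0 h1 hi A c hr t ht s hs (le_of_not_ge hst)
    rwa [abs_sub_comm, abs_sub_comm t s] at this
  have a1 := mu_ball_diff h1 hi A c (hr.trans hs.1) hst ht.2
  have a2 : mu w (A ∩ ball c s) ≤ mu w (A ∩ ball c t) :=
    mu_mono h0 hi (inter_subset_inter_right _ (ball_subset_ball hst))
  rw [abs_sub_comm, abs_of_nonneg (by linarith), abs_sub_comm, abs_of_nonneg (by linarith)]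
  exact a1

theorem mu_ball_mono {w : ℂ → ℝ} (h0 : ∀ x, 0 ≤ w x)
    (hi : Integrable w) (A : Set ℂ) (c : ℂ) (r R : ℝ) :
    MonotoneOn (fun t => mu w (A ∩ ball c t)) (Icc r R) := by
  intro s _ t _ hst
  exact mu_mono h0 hi (inter_subset_inter_right _ (ball_subset_ball hst))

end Pool.Agent.TH833.HU
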