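import Pool.Agent.TH833.HU.C13a

/-!
# HU C13, part 2: numerical lemmas
-/

set_option autoImplicit false

open MeasureTheory Set Metric Filter Topology
open scoped ENNReal Real

noncomputable section

namespace Pool.Agent.TH833.HU

theorem num1 {μ δ : ℝ} (hδ : δ = 1 / 10 ^ 16)
    (h : |μ - π * (41 / 2000000) ^ 2 / 4| ≤ δ) :
    μ ≤ 34 / 10 ^ 11 ∧ π * (41 / 2000000) / 2 + δ - 100000 * μ ≤ -(7 / 10 ^ 7) := by
  have h1 := Real.pi_gt_d4
  have h2 := Real.pi_lt_d4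
  obtain ⟨h3, h4⟩ := abs_le.1 h
  subst hδ
  constructor
  · norm_num at *
    linarith
  · norm_num at *
    linarith

theorem num0 {a V : ℝ} (ha : 0 ≤ a) (hV : 0 < V) (h : a * (V - a) ≤ (0.2901 * V) ^ 2)
    (h' : 0 ≤ (a - 0.11 * V) * (0.798 * V - a)) : False := by
  have m1 : 0 ≤ a * V := mul_nonneg ha hV.le
  have m2 : 0 < V ^ 2 := pow_pos hV 2
  have e1 : (0.2901 * V) ^ 2 = 0.08415801 * V ^ 2 := by ring
  have e2 : (a - 0.11 * V) * (0.798 * V - a) = 0.908 * (a * V) - a ^ 2 - 0.08778 * V ^ 2 := by ring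
  have e3 : a * (V - a) = a * V - a ^ 2 := by ring
  rw [e1, e3] at h
  rw [e2] at h'
  linarith

theorem sqrt_two_gt : (1.414 : ℝ) < √2 := by
  rw [Real.lt_sqrt (by norm_num)]; norm_num

theorem num2 {a b V M δ : ℝ} (hδ : δ = 1 / 10 ^ 16) (ha : 0 ≤ a) (hb : 0 ≤ b) (hab : a + b = V)
    (hM : M ≤ V + 20 * δ)
    (h : √2 * (1 - δ) * (√a + √b) ≤ (100000 * M - 7 / 10 ^ 7) + 200 * V) : 1 / 10 ^ 10 ≤ V := by
  by_contra hV
  push Not at hV
  have hV0 : 0 ≤ V := by linarith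
  set s := √V with hs
  have hs0 : 0 ≤ s := Real.sqrt_nonneg _
  have hss : s ^ 2 = V := Real.sq_sqrt hV0
  have hab2 : s ≤ √a + √b := by
    rw [hs, ← hab]
    rw [Real.sqrt_le_left (by positivity), add_sq, Real.sq_sqrt ha, Real.sq_sqrt hb]
    have : 0 ≤ 2 * √a * √b := by positivity
    linarith
  have hs5 : s ≤ 1 / 10 ^ 5 := by
    rw [hs, Real.sqrt_le_left (by norm_num)]
    refine hV.le.trans (by norm_num)
  have h2 := sqrt_two_gt
  have h3 : (1.413 : ℝ) ≤ √2 * (1 - δ) := by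
    rw [hδ]
    nlinarith
  have h4 : 1.413 * s ≤ √2 * (1 - δ) * (√a + √b) :=
    mul_le_mul h3 hab2 hs0 (by linarith)
  have h5 : V ≤ 1 / 10 ^ 5 * s := by
    rw [← hss]; nlinarith
  rw [hδ] at hM
  norm_num at *
  linarith

theorem num3 {a b V M r δ : ℝ} (hδ : δ = 1 / 10 ^ 16) (ha : 0 ≤ a) (hb : 0 ≤ b) (hab : a + b = V)
    (hM : M ≤ V + 20 * δ) (hM2 : (1 - δ) * V ≤ M) (hM3 : M ≤ 34 / 10 ^ 11)
    (hr0 : 0 ≤ r) (hr : |M - π * r ^ 2 / 4| ≤ δ) (hV : 1 / 10 ^ 10 ≤ V)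
    (h : √2 * (1 - δ) * (√a + √b) ≤ (π * r / 2 + δ) + 200 * V)
    (h' : 2 * (1 - δ) * √a ≤ (π * r / 2 + δ) + 200 * V) : a + 20 * δ ≤ 43 / 10 ^ 12 := by
  have hV0 : 0 ≤ V := by linarith
  set s := √V with hs
  have hs0 : 0 ≤ s := Real.sqrt_nonneg _
  have hss : s ^ 2 = V := Real.sq_sqrt hV0
  have hs5 : 1 / 10 ^ 5 ≤ s := by
    rw [hs]
    exact Real.le_sqrt_of_sq_le (le_trans (by norm_num) hV)
  have hVu : V ≤ 341 / 10 ^ 12 := by
    rw [hδ] at hM2
    norm_num at *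
    linarith
  have hs6 : s ≤ 185 / 10 ^ 7 := by
    rw [hs, Real.sqrt_le_left (by norm_num)]
    refine hVu.trans (by norm_num)
  have p1 := Real.pi_gt_d4
  have p2 := Real.pi_lt_d4
  have hr1 : π * r ^ 2 / 4 ≤ V + 21 * δ := by
    have := (abs_le.1 hr).1
    linarith
  have hr2 : (π * r / 2) ^ 2 ≤ (1.7725 * s) ^ 2 := by
    have e1 : (π * r / 2) ^ 2 = π * (π * r ^ 2 / 4) := by ring
    rw [e1, mul_pow, hss]
    have e2 : π * (π * r ^ 2 / 4) ≤ π * (V + 21 * δ) :=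
      mul_le_mul_of_nonneg_left hr1 (by linarith)
    have e3 : V + 21 * δ ≤ 1.000022 * V := by
      rw [hδ]; norm_num at *; linarith
    have e4 : π * (V + 21 * δ) ≤ 3.1416 * (1.000022 * V) := by
      apply mul_le_mul p2.le e3 _ (by norm_num)
      rw [hδ]; positivity
    refine e2.trans (e4.trans ?_)
    nlinarith
  have hr3 : π * r / 2 ≤ 1.7725 * s := by
    have q1 : 0 ≤ π * r / 2 := by positivity
    have q2 : 0 ≤ 1.7725 * s := by positivity
    exact (pow_le_pow_iff_left₀ q1 q2 (by norm_num)).1 hr2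
  have h200 : 200 * V ≤ 0.0037 * s := by
    rw [← hss]; nlinarith
  have hδs : δ ≤ 0.0001 * s := by
    rw [hδ]; norm_num at *; linarith
  have hup : (π * r / 2 + δ) + 200 * V ≤ 1.777 * s := by linarith
  set α := √a with hα
  set β := √b with hβ
  have hα0 : 0 ≤ α := Real.sqrt_nonneg _
  have hβ0 : 0 ≤ β := Real.sqrt_nonneg _
  have hαα : α ^ 2 = a := Real.sq_sqrt ha
  have hββ : β ^ 2 = b := Real.sq_sqrt hb
  have h2 := sqrt_two_gt
  have h3 : (1.4139 : ℝ) ≤ √2 * (1 - δ) := by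
    rw [hδ]
    nlinarith
  have h4 : 1.4139 * (α + β) ≤ 1.777 * s :=
    (mul_le_mul_of_nonneg_right h3 (by positivity)).trans (h.trans hup)
  have h5 : 1.99 * α ≤ 1.777 * s := by
    refine le_trans ?_ (h'.trans hup)
    apply mul_le_mul_of_nonneg_right _ hα0
    rw [hδ]; norm_num
  have h6 : α + β ≤ 1.257 * s := by
    linarith
  have h7 : α ≤ 0.8931 * s := by linarith
  have h8 : (α + β) ^ 2 ≤ (1.257 * s) ^ 2 := pow_le_pow_left₀ (by positivity) h6 2
  have h9 : α ^ 2 ≤ (0.8931 * s) ^ 2 := pow_le_pow_left₀ hα0 h7 2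
  have h10 : α * β ≤ 0.2901 * V := by
    have : (α + β) ^ 2 = V + 2 * (α * β) := by
      rw [← hab, ← hαα, ← hββ]; ring
    rw [this, mul_pow, hss] at h8
    linarith
  have h11 : a ≤ 0.798 * V := by
    rw [hαα, mul_pow, hss] at h9
    linarith
  have h12 : a * b ≤ (0.2901 * V) ^ 2 := by
    have : a * b = (α * β) ^ 2 := by rw [mul_pow, hαα, hββ]
    rw [this]
    exact pow_le_pow_left₀ (by positivity) h10 2
  have h13 : a ≤ 0.11 * V := by
    by_contra hc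
    push Not at hc
    have e1 : b = V - a := by linarith
    rw [e1] at h12
    have e2 : 0 ≤ (a - 0.11 * V) * (0.798 * V - a) :=
      mul_nonneg (by linarith) (by linarith)
    have hVp : 0 < V := lt_of_lt_of_le (by norm_num) hV
    exact num0 ha hVp h12 e2
  rw [hδ]
  norm_num at *
  linarith

end Pool.Agent.TH833.HU
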