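import Pool.Agent.TH833.HU.C13b

/-!
# HU C13, part 3: concentration of the minimizer
-/

set_option autoImplicit false

open MeasureTheory Set Metric Filter Topology
open scoped ENNReal Real

noncomputable section

namespace Pool.Agent.TH833.HU

open Pool.Agent.TH304.MI Pool.Agent.TH703.HU

theorem vol_Q_lt {δ : ℝ} (hδ : 0 < δ) :
    volume {x : ℂ | |x.re| < 1 / 2 - δ ∧ |x.im| < 1 / 2 - δ} ≠ ⊤ := by
  have hsub : {x : ℂ | |x.re| < 1 / 2 - δ ∧ |x.im| < 1 / 2 - δ} ⊆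
      {x : ℂ | x.re ∈ {t : ℝ | |t| ≤ 1} ∧ x.im ∈ {t : ℝ | |t| ≤ 1}} := by
    intro x hx
    simp only [mem_ofPred_eq] at hx ⊢
    constructor <;> linarith [hx.1, hx.2]
  refine ne_top_of_le_ne_top ?_ (measure_mono hsub)
  rw [vol_rect _ _ meas_bx meas_bx, vol_bx]
  exact ENNReal.mul_ne_top ENNReal.ofReal_ne_top ENNReal.ofReal_ne_top

theorem meas_Q (δ : ℝ) :
    MeasurableSet {x : ℂ | |x.re| < 1 / 2 - δ ∧ |x.im| < 1 / 2 - δ} :=
  ((isOpen_lt (continuous_abs.comp Complex.continuous_re) continuous_const).inter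
    (isOpen_lt (continuous_abs.comp Complex.continuous_im) continuous_const)).measurableSet

theorem meas_R : MeasurableSet {x : ℂ | 2 / 5 < x.re ∧ |x.im| < 43 / 100} :=
  ((isOpen_lt continuous_const Complex.continuous_re).inter
    (isOpen_lt (continuous_abs.comp Complex.continuous_im) continuous_const)).measurableSet

theorem bulk (c4 : S_C4) {w : ℂ → ℝ} {A : Set ℂ} {Λ v δ : ℝ} (hΛ : Λ = 100000)
    (hv : v = 34 / 10 ^ 11) (hδ : δ = 1 / 10 ^ 16)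
    (hc : Continuous w) (h0 : ∀ x, 0 ≤ w x) (h1 : ∀ x, w x ≤ 1) (hi : Integrable w)
    (hD : ∀ x : ℂ, 0 < w x → |x.re| + |x.im| < 1)
    (hin : ∀ x : ℂ, |x.re| ≤ 1 / 2 - δ → |x.im| ≤ 1 / 2 - δ → 1 - δ ≤ w x)
    (hout : ∀ x : ℂ, (1 / 2 + δ ≤ |x.re| ∨ 1 / 2 + δ ≤ |x.im|) → w x ≤ δ)
    (h8c : ContinuousOn (fun r : ℝ => mu w (ball ⟨1 / 2, 1 / 2⟩ r)) (Icc 0 (3 / 10)))
    (h8 : ∀ r ∈ Icc (0 : ℝ) (3 / 10), |mu w (ball ⟨1 / 2, 1 / 2⟩ r) - π * r ^ 2 / 4| ≤ δ ∧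
      PW w (ball ⟨1 / 2, 1 / 2⟩ r) (π * r / 2 + δ))
    (hA : MinW w Λ v A) :
    mu w (A ∩ ball 1 (3 / 5)) ≤ 43 / 10 ^ 12 := by
  have hδ0 : 0 < δ := by rw [hδ]; norm_num
  set Q : Set ℂ := {x | |x.re| < 1 / 2 - δ ∧ |x.im| < 1 / 2 - δ} with hQ
  set R : Set ℂ := {x | 2 / 5 < x.re ∧ |x.im| < 43 / 100} with hR
  have mQ : MeasurableSet Q := meas_Q δ
  have mR : MeasurableSet R := meas_R
  have fQ : volume Q ≠ ⊤ := vol_Q_lt hδ0
  set a := volume.real (A ∩ Q ∩ R) with ha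
  set b := volume.real ((A ∩ Q) \ R) with hb
  set V := volume.real (A ∩ Q) with hV
  have fAQ : volume (A ∩ Q) ≠ ⊤ := ne_top_of_le_ne_top fQ (measure_mono inter_subset_right)
  have hab : a + b = V := measureReal_inter_add_sdiff mR (h := fAQ)
  have ha0 : 0 ≤ a := measureReal_nonneg
  have hb0 : 0 ≤ b := measureReal_nonneg
  have hMV : mu w A ≤ V + 20 * δ := by
    rw [← mu_split hi A mQ]
    have e1 : mu w (A ∩ Q) ≤ V := mu_le_real h1 hi fAQ
    have e2 : mu w (A \ Q) ≤ 20 * δ :=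
      mu_out hδ0 h0 h1 hi hD hout (fun x hx h => hx.2 h) (hA.meas.diff mQ)
    linarith
  have hVM : (1 - δ) * V ≤ mu w A := by
    refine le_trans ?_ (mu_mono h0 hi (inter_subset_left : A ∩ Q ⊆ A))
    have e1 : ∫ x in A ∩ Q, (1 - δ) ≤ ∫ x in A ∩ Q, w x := by
      apply setIntegral_mono_on (integrableOn_const (hs := fAQ)) hi.integrableOn
        (hA.meas.inter mQ)
      intro x hx
      exact hin x hx.2.1.le hx.2.2.le
    rw [setIntegral_const, smul_eq_mul, mul_comm] at e1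
    exact e1
  have hloc : mu w (A ∩ ball 1 (3 / 5)) ≤ a + 20 * δ := by
    rw [← mu_split hi (A ∩ ball 1 (3 / 5)) mQ]
    have hsub : A ∩ ball 1 (3 / 5) ∩ Q ⊆ A ∩ Q ∩ R := by
      rintro x ⟨⟨hxA, hxb⟩, hxQ⟩
      refine ⟨⟨hxA, hxQ⟩, ?_⟩
      rw [mem_ball, dist_eq_norm] at hxb
      have hsq : ‖x - 1‖ ^ 2 < (3 / 5) ^ 2 := pow_lt_pow_left₀ hxb (norm_nonneg _) (by norm_num)
      rw [← Complex.normSq_eq_norm_sq, Complex.normSq_apply] at hsq
      simp only [Complex.sub_re, Complex.one_re, Complex.sub_im, Complex.one_im, sub_zero] at hsq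
      have hre : |x.re| < 1 / 2 := by linarith [hxQ.1]
      obtain ⟨q1, q2⟩ := abs_lt.1 hre
      constructor
      · by_contra hcon
        push Not at hcon
        nlinarith [mul_self_nonneg x.im]
      · rw [abs_lt]
        constructor <;> nlinarith
    have e1 : mu w (A ∩ ball 1 (3 / 5) ∩ Q) ≤ a := by
      refine (mu_mono h0 hi hsub).trans (mu_le_real h1 hi ?_)
      exact ne_top_of_le_ne_top fAQ (measure_mono inter_subset_left)
    have e2 : mu w ((A ∩ ball 1 (3 / 5)) \ Q) ≤ 20 * δ :=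
      mu_out hδ0 h0 h1 hi hD hout (fun x hx h => hx.2 h) ((hA.meas.inter measurableSet_ball).diff mQ)
    linarith
  have hc4 : ∀ P : ℝ, PW w A P →
      √2 * (1 - δ) * (√a + √b) ≤ P + 200 * V ∧ 2 * (1 - δ) * √a ≤ P + 200 * V :=
    fun P hP => c4 w A P δ hc h0 hA.meas hδ0 (by rw [hδ]; norm_num) (pw_nonneg h0 hP) hin hP
      Q R hQ hR
  -- the competitor
  have hlow : 1 / 10 ^ 10 ≤ V := by
    obtain ⟨g1, g2⟩ := h8 (41 / 2000000) ⟨by norm_num, by norm_num⟩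
    obtain ⟨g3, g4⟩ := num1 hδ g1
    have hP := hA.min (ball ⟨1 / 2, 1 / 2⟩ (41 / 2000000)) _ measurableSet_ball
      (by rw [hv]; exact g3) g2
    have hP2 : PW w A (100000 * mu w A - 7 / 10 ^ 7) := by
      apply pw_mono hP
      rw [hΛ]
      linarith
    exact num2 hδ ha0 hb0 hab hMV (hc4 _ hP2).1
  -- the comparison with a disc of the same mass
  have hM0 : 0 ≤ mu w A := mu_nonneg h0 A
  have hMle : mu w A ≤ 34 / 10 ^ 11 := by rw [← hv]; exact hA.le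
  obtain ⟨r, hr, hrM⟩ : ∃ r ∈ Icc (0 : ℝ) (3 / 10), mu w (ball ⟨1 / 2, 1 / 2⟩ r) = mu w A := by
    have hI := intermediate_value_Icc (show (0 : ℝ) ≤ 3 / 10 by norm_num) h8c
    apply hI
    constructor
    · have : mu w (ball ⟨1 / 2, 1 / 2⟩ 0) = 0 := by simp [mu]
      simp only [this]
      exact hM0
    · have g1 := (h8 (3 / 10) ⟨by norm_num, by norm_num⟩).1
      have g2 := (abs_le.1 g1).1
      have g3 := Real.pi_gt_d4
      rw [hδ] at g2
      norm_num at *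
      linarith
  obtain ⟨g1, g2⟩ := h8 r hr
  have hP := hA.min (ball ⟨1 / 2, 1 / 2⟩ r) _ measurableSet_ball (by rw [hrM]; exact hA.le) g2
  rw [hrM, sub_self, mul_zero, add_zero] at hP
  rw [hrM] at g1
  obtain ⟨k1, k2⟩ := hc4 _ hP
  exact hloc.trans (num3 hδ ha0 hb0 hab hMV hVM hMle hr.1 g1 hlow k1 k2)

end Pool.Agent.TH833.HU
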